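import Pool.Agent.Helper35.HX.Alg
import Pool.Agent.Helper50.DE.DivVecG
import Pool.Agent.Helper43.DA.Sm

/-!
HX: divergence of the vector density (K2) and smoothness (K5a, K5b, K5c)
-/

set_option autoImplicit false
set_option linter.unusedSimpArgs false

open scoped Manifold ContDiff

namespace Pool.Agent.Helper33.HX

open Pool.Agent.Helper8.DC Pool.Agent.Helper8.DA Pool.Agent.Helper8.DE Pool.Agent.Helper8.HX
  Pool.Agent.Helper50.DA

noncomputable section

theorem div_vecH {N : ℕ} (A : E4 → Fin 4 → R3) (B : E4 → Fin 4 → Matrix (Fin N) (Fin N) ℝ)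
    (s : E4 → Fin N → R3) (T : E4 → Fin 4 → Fin 4 → R3) (U : Set E4) (hU : IsOpen U)
    (hA : ContDiffOn ℝ ∞ A U) (hB : ∀ m r t, ContDiffOn ℝ ∞ (fun y => B y m r t) U)
    (hs : ContDiffOn ℝ ∞ s U) (hT : ContDiffOn ℝ ∞ T U) (hTs : ∀ z ∈ U, Skew (T z)) (y : E4)
    (hy : y ∈ U) (hskew : ∀ m r t, B y m r t = -B y m t r) (hTc : CovClosed A T y) :
    ∑ l, pd l (fun z => vecH A B s T z l) y =
      ∑ r, (quad (covL A B s y r) (T y) + restK (s y r) (crossGram (curv A y) (T y))) +
        curvTerm (mcurv B y) (s y) (T y) := by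
  have sA : ∀ m, ContDiffOn ℝ ∞ (fun z => A z m) U := fun m => contDiffOn_pi.mp hA m
  have dA : ∀ m, DifferentiableAt ℝ (fun z => A z m) y := fun m => g_sm_diff hU (sA m) hy
  have ss : ∀ r, ContDiffOn ℝ ∞ (fun z => s z r) U := fun r => contDiffOn_pi.mp hs r
  have ds : ∀ r, DifferentiableAt ℝ (fun z => s z r) y := fun r => g_sm_diff hU (ss r) hy
  have dB : ∀ m r t, DifferentiableAt ℝ (fun z => B z m r t) y := fun m r t =>
    g_sm_diff hU (hB m r t) hy
  have dps : ∀ r m, DifferentiableAt ℝ (fun z => pd m (fun w => s w r) z) y := fun r m =>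
    g_sm_diff hU (g_sm_pd m hU (ss r)) hy
  have dpA : ∀ k m, DifferentiableAt ℝ (fun z => pd k (fun w => A w m) z) y := fun k m =>
    g_sm_diff hU (g_sm_pd k hU (sA m)) hy
  have dcov : ∀ r m, DifferentiableAt ℝ (fun z => cov A (fun w => s w r) z m) y := fun r m =>
    (dps r m).fun_add (g_cross_diff (dA m) (ds r))
  have dBs : ∀ r m t, DifferentiableAt ℝ (fun z => B z m r t • s z t) y := fun r m t =>
    (dB m r t).fun_smul (ds t)
  have dBS : ∀ r m, DifferentiableAt ℝ (fun z => ∑ t, B z m r t • s z t) y := fun r m =>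
    DifferentiableAt.fun_sum fun t _ => dBs r m t
  have dcovL : ∀ r m, DifferentiableAt ℝ (fun z => covL A B s z r m) y := fun r m =>
    (dcov r m).fun_add (dBS r m)
  have dT : ∀ m n, DifferentiableAt ℝ (fun z => T z m n) y := fun m n =>
    g_sm_diff hU (contDiffOn_pi.mp (contDiffOn_pi.mp hT m) n) hy
  have pcov : ∀ r l m, pd l (fun z => covL A B s z r m) y =
      pd l (fun z => pd m (fun w => s w r) z) y +
      (crossProduct (pd l (fun z => A z m) y) (s y r) +
        crossProduct (A y m) (pd l (fun z => s z r) y)) +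
      ∑ t, (pd l (fun z => B z m r t) y • s y t + B y m r t • pd l (fun z => s z t) y) := by
    intro r l m
    unfold covL
    rw [g_pd_add l (dcov r m) (dBS r m), d_pd_sum _ l (fun t _ => dBs r m t)]
    congr 1
    · unfold cov
      rw [g_pd_add l (dps r m) (g_cross_diff (dA m) (ds r)), g_pd_cross l (dA m) (ds r)]
    · exact Finset.sum_congr rfl fun t _ => d_pd_smul l (dB m r t) (ds t)
  have e1 : ∀ r l, pd l (fun z => s z r) y =
      covL A B s y r l - crossProduct (A y l) (s y r) - ∑ t, B y l r t • s y t := by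
    intro r l
    unfold covL cov
    abel
  have key : ∀ l, pd l (fun z => vecH A B s T z l) y =
      ∑ r, (trip (covL A B s y r l - crossProduct (A y l) (s y r) - ∑ t, B y l r t • s y t)
          (Pi.single l 1) (covL A B s y r) (T y) +
        trip (s y r) (Pi.single l 1) (fun m => pd l (fun z => covL A B s z r m) y) (T y) +
        trip (s y r) (Pi.single l 1) (covL A B s y r)
          (fun m n => pd l (fun z => T z m n) y)) := by
    intro l
    have ht := fun r => d_trip l (Pi.single l 1) (φ := fun z => s z r)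
      (α := fun z => covL A B s z r) (F := fun z => T z) (y := y) (ds r) (dcovL r) dT
    unfold vecH
    rw [d_pd_sum _ l (fun r _ => (ht r).1)]
    refine Finset.sum_congr rfl fun r _ => ?_
    rw [(ht r).2, e1]
  simp only [key]
  refine Pool.Agent.Helper35.HX.alg_divH (A y) (B y) hskew (mcurv B y) ?_ (s y) (covL A B s y)
    (fun r l m => pd l (fun z => covL A B s z r m) y) (curv A y) (T y)
    (fun l m n => pd l (fun z => T z m n) y) ?_ (hTs y hy) ?_ ?_ hTc
  · intro r t l m
    simp only [mcurv, Matrix.sub_apply]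
    ring
  · intro l m
    unfold curv
    rw [← cross_anticomm (A y m) (A y l)]
    abel
  · intro k l m
    have he : (fun z => T z l m) =ᶠ[nhds y] fun z => -T z m l := by
      filter_upwards [hU.mem_nhds hy] with z hz
      exact hTs z hz l m
    unfold pd
    rw [he.fderiv_eq, fderiv_fun_neg]
    rfl
  · intro r l m
    simp only [pcov]
    rw [g_pd_comm m l hU (ss r) hy]
    have hG : ∀ t, mcurv B y r t l m = pd l (fun z => B z m r t) y - pd m (fun z => B z l r t) y +
        (∑ u, B y l r u * B y m u t - ∑ u, B y m r u * B y l u t) := by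
      intro t
      simp only [mcurv, Matrix.sub_apply, Matrix.mul_apply]
    simp only [hG]
    unfold covL cov curv
    funext a
    simp only [Pi.add_apply, Pi.sub_apply, Finset.sum_apply, Pi.smul_apply, smul_eq_mul, map_add,
      map_sum, LinearMap.map_smul, Finset.sum_add_distrib, Finset.sum_sub_distrib, add_mul, sub_mul,
      mul_add, Finset.sum_mul, Finset.mul_sum]
    have hsw : ∀ p q : Fin 4, ∑ t, ∑ u, B y p r t * (B y q t u * s y u a) =
        ∑ t, ∑ u, B y p r u * B y q u t * s y t a := by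
      intro p q
      rw [Finset.sum_comm]
      refine Finset.sum_congr rfl fun t _ => Finset.sum_congr rfl fun u _ => ?_
      ring
    rw [hsw, hsw]
    have hj : ∀ u v w : R3, crossProduct u (crossProduct v w) a -
        crossProduct v (crossProduct u w) a = crossProduct (crossProduct u v) w a := by
      intro u v w
      fin_cases a <;>
      · simp only [Fin.mk_zero, Fin.mk_one, Fin.reduceFinMk, Fin.zero_eta, g_cr0, g_cr1, g_cr2]
        ring
    simp only [map_sub, LinearMap.add_apply, LinearMap.sub_apply, Pi.add_apply, Pi.sub_apply]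
    linear_combination hj (A y l) (A y m) (s y r)

theorem vecH_smooth {N : ℕ} {U : Set E4} (hU : IsOpen U) {A : E4 → Fin 4 → R3}
    {B : E4 → Fin 4 → Matrix (Fin N) (Fin N) ℝ} {s : E4 → Fin N → R3}
    {T : E4 → Fin 4 → Fin 4 → R3}
    (hA : ContDiffOn ℝ ∞ A U) (hB : ∀ m r t, ContDiffOn ℝ ∞ (fun y => B y m r t) U)
    (hs : ContDiffOn ℝ ∞ s U) (hT : ContDiffOn ℝ ∞ T U) (l : Fin 4) :
    ContDiffOn ℝ ∞ (fun y => vecH A B s T y l) U := by
  unfold vecH
  refine ContDiffOn.sum fun r _ => ?_
  have hφ' := contDiffOn_pi.mp (contDiffOn_pi.mp hs r)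
  have hw : ∀ b c : Fin 3, ContDiffOn ℝ ∞ (fun y => wedge3 (Pi.single l 1)
      (cm1 (covL A B s y r) b) (cmp (T y) c)) U := by
    intro b c
    unfold wedge3
    refine sm_wedge (fun p q => ?_) (fun p q => ?_)
    · have h1 := contDiffOn_pi.mp (Pool.Agent.Helper43.DA.covL_smooth hU hA hB hs r q) b
      have h2 := contDiffOn_pi.mp (Pool.Agent.Helper43.DA.covL_smooth hU hA hB hs r p) b
      exact (contDiffOn_const.mul h1).sub (contDiffOn_const.mul h2)
    · exact contDiffOn_pi.mp (contDiffOn_pi.mp (contDiffOn_pi.mp hT p) q) c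
  unfold trip
  exact (((hφ' 0).mul ((hw 1 2).sub (hw 2 1))).add ((hφ' 1).mul ((hw 2 0).sub (hw 0 2)))).add
    ((hφ' 2).mul ((hw 0 1).sub (hw 1 0)))

theorem tw_smooth {U : Set E4} (hU : IsOpen U) {A : E4 → Fin 4 → R3} {ρ : E4 → Fin 3 → R3}
    (hA : ContDiffOn ℝ ∞ A U) (hρ : ContDiffOn ℝ ∞ ρ U) :
    ContDiffOn ℝ ∞ (fun y => tw (ρ y) (curv A y)) U := by
  refine contDiffOn_pi.mpr fun l => contDiffOn_pi.mpr fun m => contDiffOn_pi.mpr fun r => ?_
  unfold tw
  exact ContDiffOn.sum fun a _ => (contDiffOn_pi.mp (contDiffOn_pi.mp hρ r) a).mul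
    (contDiffOn_pi.mp (sm_curv hU hA l m) a)

theorem tw_skew (ρ : Fin 3 → R3) (F : Fin 4 → Fin 4 → R3) (hF : Skew F) : Skew (tw ρ F) := by
  intro l m
  funext r
  unfold tw
  rw [Pi.neg_apply, ← Finset.sum_neg_distrib]
  refine Finset.sum_congr rfl fun a _ => ?_
  rw [hF l m, Pi.neg_apply, mul_neg]

end

end Pool.Agent.Helper33.HX
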